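import Pool.Agent.W402.HI.Defs

/-!
Project HI, part G2: a normal operator with a compact perturbation whose spectrum is one point is
compact up to a scalar.
-/

set_option autoImplicit false

open Filter Topology Metric

namespace Pool.Agent.W806.HI

/-- shrinking by `ε` -/
noncomputable def sh (ε : ℝ) (z : ℂ) : ℂ := (((max 0 (‖z‖ - ε)) / max ‖z‖ ε : ℝ) : ℂ) * z

/-- `sh ε z / z ^ n` -/
noncomputable def kn (ε : ℝ) (n : ℕ) (z : ℂ) : ℂ :=
  (((max 0 (‖z‖ - ε)) / max ‖z‖ ε / (max ‖z‖ ε) ^ (2 * n) : ℝ) : ℂ) * z * (starRingEnd ℂ z) ^ n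

theorem cont_sh {ε : ℝ} (hε : 0 < ε) : Continuous (sh ε) := by
  unfold sh
  have h : ∀ z : ℂ, max ‖z‖ ε ≠ 0 := fun z => (lt_of_lt_of_le hε (le_max_right _ _)).ne'
  have h1 : Continuous fun z : ℂ => (max 0 (‖z‖ - ε)) / max ‖z‖ ε := by
    refine Continuous.div ?_ ?_ h <;> fun_prop
  exact (Complex.continuous_ofReal.comp h1).mul continuous_id

theorem cont_kn {ε : ℝ} (hε : 0 < ε) (n : ℕ) : Continuous (kn ε n) := by
  unfold kn
  have h : ∀ z : ℂ, max ‖z‖ ε ≠ 0 := fun z => (lt_of_lt_of_le hε (le_max_right _ _)).ne'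
  have h1 : Continuous fun z : ℂ => (max 0 (‖z‖ - ε)) / max ‖z‖ ε / (max ‖z‖ ε) ^ (2 * n) := by
    refine Continuous.div (Continuous.div ?_ ?_ h) ?_ (fun z => pow_ne_zero _ (h z)) <;> fun_prop
  exact ((Complex.continuous_ofReal.comp h1).mul continuous_id).mul
    (Complex.continuous_conj.pow n)

theorem kn_mul {ε : ℝ} (hε : 0 < ε) (n : ℕ) (z : ℂ) : kn ε n z * z ^ n = sh ε z := by
  unfold kn sh
  by_cases hz : ‖z‖ ≤ ε
  · rw [max_eq_left (by linarith : ‖z‖ - ε ≤ 0)]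
    simp
  · push Not at hz
    rw [max_eq_left hz.le, max_eq_right (by linarith : 0 ≤ ‖z‖ - ε)]
    have hz0 : (0 : ℝ) < ‖z‖ := hε.trans hz
    have h1 : (starRingEnd ℂ z) ^ n * z ^ n = ((‖z‖ : ℝ) : ℂ) ^ (2 * n) := by
      rw [← mul_pow, mul_comm (starRingEnd ℂ z) z, Complex.mul_conj, Complex.normSq_eq_norm_sq,
        pow_mul]
      push_cast
      rfl
    have h2 : ((‖z‖ : ℝ) : ℂ) ≠ 0 := by exact_mod_cast hz0.ne'
    rw [mul_assoc, h1]
    push_cast
    field_simp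

theorem norm_kn {ε : ℝ} (hε : 0 < ε) (n : ℕ) (z : ℂ) : ‖kn ε n z‖ ≤ ‖z‖ * (ε⁻¹) ^ n := by
  unfold kn
  have hm : 0 < max ‖z‖ ε := lt_of_lt_of_le hε (le_max_right _ _)
  have h0 : 0 ≤ max 0 (‖z‖ - ε) := le_max_left _ _
  rw [norm_mul, norm_mul, norm_pow, RCLike.norm_conj, Complex.norm_real, Real.norm_of_nonneg
    (by positivity)]
  have h1 : (max 0 (‖z‖ - ε)) / max ‖z‖ ε ≤ 1 := by
    rw [div_le_one hm]
    apply max_le hm.le
    have : ‖z‖ ≤ max ‖z‖ ε := le_max_left _ _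
    linarith
  have h2 : ‖z‖ ^ n ≤ (max ‖z‖ ε) ^ n := pow_le_pow_left₀ (norm_nonneg _) (le_max_left _ _) n
  have h3 : ((max ‖z‖ ε) ^ n)⁻¹ ≤ (ε⁻¹) ^ n := by
    rw [← inv_pow]
    exact pow_le_pow_left₀ (by positivity) (inv_anti₀ hε (le_max_right _ _)) n
  calc (max 0 (‖z‖ - ε)) / max ‖z‖ ε / (max ‖z‖ ε) ^ (2 * n) * ‖z‖ * ‖z‖ ^ n
      ≤ 1 / (max ‖z‖ ε) ^ (2 * n) * ‖z‖ * (max ‖z‖ ε) ^ n := by gcongr
    _ = ‖z‖ * ((max ‖z‖ ε) ^ n)⁻¹ := by
        rw [two_mul, pow_add]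
        field_simp
    _ ≤ ‖z‖ * (ε⁻¹) ^ n := by gcongr

theorem norm_sub_sh {ε : ℝ} (hε : 0 < ε) (z : ℂ) : ‖z - sh ε z‖ ≤ ε := by
  unfold sh
  have h : z - (((max 0 (‖z‖ - ε)) / max ‖z‖ ε : ℝ) : ℂ) * z =
      ((1 - (max 0 (‖z‖ - ε)) / max ‖z‖ ε : ℝ) : ℂ) * z := by
    push_cast
    ring
  rw [h, norm_mul, Complex.norm_real, Real.norm_eq_abs]
  by_cases hz : ‖z‖ ≤ ε
  · rw [max_eq_left (by linarith : ‖z‖ - ε ≤ 0)]
    simpa using hz
  · push Not at hz
    rw [max_eq_left hz.le, max_eq_right (by linarith : 0 ≤ ‖z‖ - ε)]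
    have hz0 : (0 : ℝ) < ‖z‖ := hε.trans hz
    have h1 : 1 - (‖z‖ - ε) / ‖z‖ = ε / ‖z‖ := by field_simp; ring
    rw [h1, abs_of_pos (by positivity), div_mul_cancel₀ _ hz0.ne']

variable {H : Type} [NormedAddCommGroup H] [InnerProductSpace ℂ H] [CompleteSpace H]

omit [CompleteSpace H] in
theorem pow_compact (T K : H →L[ℂ] H) (hK : IsCompactOperator K) (n : ℕ) :
    IsCompactOperator ((T - K) ^ n - T ^ n : H →L[ℂ] H) := by
  induction n with
  | zero =>
    simp only [pow_zero, sub_self]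
    exact isCompactOperator_zero
  | succ n ih =>
    have h1 : ((T - K) ^ (n + 1) - T ^ (n + 1) : H →L[ℂ] H) =
        ((T - K) ^ n - T ^ n) * (T - K) - T ^ n * K := by
      rw [pow_succ, pow_succ]
      noncomm_ring
    rw [h1]
    have h2 : IsCompactOperator (((T - K) ^ n - T ^ n) * (T - K) : H →L[ℂ] H) :=
      ih.comp_clm (T - K)
    have h3 : IsCompactOperator (T ^ n * K : H →L[ℂ] H) := hK.clm_comp (T ^ n)
    exact h2.sub h3

theorem core (N K : H →L[ℂ] H) (hN : IsStarNormal N) (hK : IsCompactOperator K)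
    (hs : spectrum ℂ (N + K) = {0}) : IsCompactOperator N := by
  set T : H →L[ℂ] H := N + K with hT
  have hNT : N = T - K := by rw [hT]; abel
  have hrad : spectralRadius ℂ T = 0 := by
    unfold spectralRadius
    rw [hs]
    simp
  have hlim := spectrum.pow_norm_pow_one_div_tendsto_nhds_spectralRadius T
  rw [hrad] at hlim
  have hclosed : IsClosed {f : H →L[ℂ] H | IsCompactOperator f} :=
    isClosed_setOfPred_isCompactOperator
  have hsh : ∀ ε : ℝ, 0 < ε → IsCompactOperator (cfc (sh ε) N : H →L[ℂ] H) := by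
    intro ε hε
    have hmem : (cfc (sh ε) N : H →L[ℂ] H) ∈ closure {f : H →L[ℂ] H | IsCompactOperator f} := by
      rw [Metric.mem_closure_iff]
      intro δ hδ
      have h1 : ∀ᶠ n : ℕ in atTop, ‖T ^ n‖ ≤ (ε / 2) ^ n := by
        have h2 : (0 : ENNReal) < ENNReal.ofReal (ε / 2) := ENNReal.ofReal_pos.2 (by positivity)
        filter_upwards [hlim.eventually_lt_const h2, eventually_gt_atTop 0] with n hn hn0
        have h3 : ‖T ^ n‖ ^ (1 / n : ℝ) < ε / 2 := (ENNReal.ofReal_lt_ofReal_iff (by positivity)).1 hn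
        have h4 : (‖T ^ n‖ ^ (1 / n : ℝ)) ^ n ≤ (ε / 2) ^ n :=
          pow_le_pow_left₀ (by positivity) h3.le n
        rwa [one_div, Real.rpow_inv_natCast_pow (norm_nonneg _) hn0.ne'] at h4
      have h2 : Tendsto (fun n : ℕ => (‖N‖ * ‖(1 : H →L[ℂ] H)‖) * (1 / 2 : ℝ) ^ n) atTop (𝓝 0) := by
        have := (tendsto_pow_atTop_nhds_zero_of_lt_one (r := (1 / 2 : ℝ)) (by norm_num)
          (by norm_num)).const_mul (‖N‖ * ‖(1 : H →L[ℂ] H)‖)
        simpa using this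
      obtain ⟨n, hn1, hn2⟩ := (h1.and (h2.eventually_lt_const hδ)).exists
      refine ⟨cfc (kn ε n) N * (N ^ n - T ^ n), ?_, ?_⟩
      · have h3 := pow_compact T K hK n
        rw [← hNT] at h3
        exact h3.clm_comp (cfc (kn ε n) N)
      · have h3 : (cfc (sh ε) N : H →L[ℂ] H) = cfc (kn ε n) N * N ^ n := by
          rw [← cfc_pow_id (R := ℂ) N n, ← cfc_mul _ _ N (cont_kn hε n).continuousOn
            (by fun_prop)]
          congr 1
          funext z
          exact (kn_mul hε n z).symm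
        have h4 : (cfc (sh ε) N : H →L[ℂ] H) - cfc (kn ε n) N * (N ^ n - T ^ n) =
            cfc (kn ε n) N * T ^ n := by
          rw [h3]
          noncomm_ring
        have h5 : ‖(cfc (kn ε n) N : H →L[ℂ] H)‖ ≤ (‖N‖ * ‖(1 : H →L[ℂ] H)‖) * (ε⁻¹) ^ n := by
          apply norm_cfc_le (by positivity)
          intro z hz
          refine (norm_kn hε n z).trans ?_
          gcongr
          exact spectrum.norm_le_norm_mul_of_mem hz
        rw [dist_eq_norm, h4]
        calc ‖(cfc (kn ε n) N : H →L[ℂ] H) * T ^ n‖ ≤ ‖(cfc (kn ε n) N : H →L[ℂ] H)‖ * ‖T ^ n‖ :=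
              norm_mul_le _ _
          _ ≤ ((‖N‖ * ‖(1 : H →L[ℂ] H)‖) * (ε⁻¹) ^ n) * (ε / 2) ^ n := by gcongr
          _ = (‖N‖ * ‖(1 : H →L[ℂ] H)‖) * (1 / 2 : ℝ) ^ n := by
              rw [mul_assoc, ← mul_pow]
              congr 2
              field_simp
          _ < δ := hn2
    rw [hclosed.closure_eq] at hmem
    exact hmem
  have hmem : N ∈ closure {f : H →L[ℂ] H | IsCompactOperator f} := by
    rw [Metric.mem_closure_iff]
    intro δ hδ
    refine ⟨cfc (sh (δ / 2)) N, hsh _ (by positivity), ?_⟩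
    have h1 : N - cfc (sh (δ / 2)) N = cfc (fun z => z - sh (δ / 2) z) N := by
      rw [cfc_sub _ _ N (by fun_prop) (cont_sh (by positivity)).continuousOn, cfc_id' ℂ N]
    rw [dist_eq_norm, h1]
    have h2 : ‖(cfc (fun z => z - sh (δ / 2) z) N : H →L[ℂ] H)‖ ≤ δ / 2 := by
      apply norm_cfc_le (by positivity)
      intro z _
      exact norm_sub_sh (by positivity) z
    linarith
  rw [hclosed.closure_eq] at hmem
  exact hmem

theorem main : Pool.Agent.W402.HI.P_G2 := by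
  intro H _ _ _ N K c hN hK hs
  have h1 : spectrum ℂ ((N - c • (1 : H →L[ℂ] H)) + K) = {0} := by
    have h2 : (N - c • (1 : H →L[ℂ] H)) + K = (N + K) - algebraMap ℂ (H →L[ℂ] H) c := by
      rw [Algebra.algebraMap_eq_smul_one]
      abel
    rw [h2, ← spectrum.sub_singleton_eq, hs]
    simp
  have h2 : IsStarNormal (N - c • (1 : H →L[ℂ] H)) := by
    constructor
    have h3 := hN.star_comm_self
    simp only [star_sub, star_smul, star_one]
    rw [Commute, SemiconjBy] at h3 ⊢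
    simp only [sub_mul, mul_sub, smul_mul_assoc, mul_smul_comm, one_mul, mul_one, h3]
    simp only [smul_sub, smul_smul, mul_comm c (star c)]
    abel
  exact core _ K h2 hK h1

end Pool.Agent.W806.HI
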